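import Pool.Agent.H.MP_ead56d_lc.C
import Pool.Agent.Lib.helper21.Cone2
import Pool.Agent.Lib.helper21.CFG

set_option autoImplicit false

namespace Pool.Agent.Results.MP_ead56d_lc.NotLeast

open Pool.Agent.Lib.helper21.Cone

/-- The family equals `T L` (on finite alphabets) for some language `L`. -/
def Principal (F : Family) : Prop :=
  ∃ (X : Type) (_ : Finite X) (L : Language X),
    ∀ (Y : Type) [Finite Y] (M : Language Y), F Y M ↔ T L Y M

def ProductClosed (F : Family) : Prop :=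
  ∀ (X : Type) [Finite X] (L₁ L₂ : Language X), F X L₁ → F X L₂ → F X (L₁ * L₂)

/-- `⟨L⟩ = {a^n f b^n : n ≥ 1, f ∈ L}` with the two new letters `a = inr false`, `b = inr true`. -/
def bracket {X : Type} (L : Language X) : Language (X ⊕ Bool) :=
  {w | ∃ n : ℕ, 1 ≤ n ∧ ∃ f ∈ L,
    w = List.replicate n (Sum.inr false) ++ f.map Sum.inl ++ List.replicate n (Sum.inr true)}

def Translatable (F : Family) : Prop :=
  ∀ (X : Type) [Finite X] (L : Language X), F X L → F (X ⊕ Bool) (bracket L)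

open Pool.Agent.H.MP_ead56d_lc Pool.Agent.Lib.helper21

def L0 : Language S := {w | LL w}

theorem mem0 {w : List S} : w ∈ L0 ↔ LL w := Iff.rfl

theorem enc_fm {Z : Type} (h : Z → List S) (w : List Z) :
    w.flatMap (fun z => enc (h z)) = enc (w.flatMap h) := by
  simp only [enc, List.flatMap_assoc]

theorem prod : ProductClosed (T L0) := by
  intro X _ L1 L2 a b
  obtain ⟨Z1, _, h1, g1, R1, r1, e1⟩ := T_iff.1 a
  obtain ⟨Z2, _, h2, g2, R2, r2, e2⟩ := T_iff.1 b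
  refine T_iff.2 ⟨(Z1 ⊕ Z2) ⊕ Bool, inferInstance,
    Sum.elim (Sum.elim (fun z => enc (h1 z)) fun z => enc (h2 z)) fun b => if b then [5, 5] else [4],
    Sum.elim (Sum.elim g1 g2) fun _ => [], _,
    reg_mul (reg_mul (reg_mul (reg_single [.inr false]) (reg_img (fun z => .inl (.inl z)) r1))
      (reg_single [.inr true])) (reg_img (fun z => .inl (.inr z)) r2), fun v => ?_⟩
  simp only [Language.mem_mul, e1, e2]
  constructor
  · rintro ⟨_, ⟨w1, a1, a2, rfl⟩, _, ⟨w2, a3, a4, rfl⟩, rfl⟩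
    refine ⟨_, ⟨_, ⟨_, ⟨_, rfl, _, ⟨w1, a1, rfl⟩, rfl⟩, _, rfl, rfl⟩, _, ⟨w2, a3, rfl⟩, rfl⟩, ?_,
      by simp [List.flatMap_map]⟩
    simpa [List.flatMap_map, enc_fm, mem0] using (pr_iff _ _).2 ⟨a2, a4⟩
  · rintro ⟨_, ⟨_, ⟨_, ⟨_, rfl, _, ⟨w1, a1, rfl⟩, rfl⟩, _, rfl, rfl⟩, _, ⟨w2, a3, rfl⟩, rfl⟩, a, rfl⟩
    have := (pr_iff (w1.flatMap h1) (w2.flatMap h2)).1 (by simpa [List.flatMap_map, enc_fm, mem0] using a)
    exact ⟨_, ⟨w1, a1, this.1, rfl⟩, _, ⟨w2, a3, this.2, rfl⟩, by simp [List.flatMap_map]⟩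

theorem transl : Translatable (T L0) := by
  intro X _ L a
  obtain ⟨Z, _, h, g, R, r, e⟩ := T_iff.1 a
  refine T_iff.2 ⟨Z ⊕ Fin 4, inferInstance,
    Sum.elim (fun z => enc (h z)) fun i => [i.castLE (by norm_num)],
    Sum.elim (fun z => (g z).map .inl) ![[.inr false], [.inr true], [], []], _,
    reg_mul (reg_single [.inr 0]) (reg_mul (reg_pow (.inr 0)) (reg_mul (reg_single [.inr 2])
      (reg_mul (reg_img .inl r) (reg_mul (reg_single [.inr 3]) (reg_pow (.inr 1)))))), fun v => ?_⟩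
  simp only [Language.mem_mul]
  constructor
  · rintro ⟨n, hn, f, hf, rfl⟩
    obtain ⟨w, a1, a2, rfl⟩ := (e _).1 hf
    obtain ⟨n, rfl⟩ : ∃ k, n = k + 1 := ⟨n - 1, by omega⟩
    refine ⟨_, ⟨_, rfl, _, ⟨_, ⟨n, rfl⟩, _, ⟨_, rfl, _, ⟨_, ⟨w, a1, rfl⟩, _,
      ⟨_, rfl, _, ⟨n + 1, rfl⟩, rfl⟩, rfl⟩, rfl⟩, rfl⟩, rfl⟩, ?_, ?_⟩
    · simpa [List.flatMap_map, enc_fm, mem0, List.flatMap_replicate, List.replicate_succ] using
        (tr_iff (n + 1) _ _).2 ⟨rfl, a2⟩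
    · simp [List.flatMap_map, List.flatMap_replicate, List.replicate_succ, List.map_flatMap]
  · rintro ⟨_, ⟨_, rfl, _, ⟨_, ⟨n, rfl⟩, _, ⟨_, rfl, _, ⟨_, ⟨w, a1, rfl⟩, _,
      ⟨_, rfl, _, ⟨k, rfl⟩, rfl⟩, rfl⟩, rfl⟩, rfl⟩, rfl⟩, a, rfl⟩
    obtain ⟨rfl, b⟩ := (tr_iff (n + 1) k (w.flatMap h)).1 (by
      simpa [List.flatMap_map, enc_fm, mem0, List.flatMap_replicate, List.replicate_succ] using a)
    exact ⟨n + 1, by omega, _, (e _).2 ⟨w, a1, b, rfl⟩, by
      simp [List.flatMap_map, List.flatMap_replicate, List.replicate_succ, List.map_flatMap]⟩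

def rl : Y → ContextFreeRule Y Unit
  | none => ⟨(), [.terminal none]⟩
  | some x => ⟨(), [.terminal (some x), .nonterminal (), .terminal (some x)]⟩

noncomputable def gr : ContextFreeGrammar Y := ⟨Unit, (), (Set.finite_range rl).toFinset⟩

theorem gr_lang (v : List Y) : v ∈ gr.language ↔ Pal v := by
  rw [CFG.mem_language_iff_gen]
  change CFG.Gen (N := Unit) ((Set.finite_range rl).toFinset : Set _) [.nonterminal ()] v ↔ _
  rw [Set.Finite.coe_toFinset]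
  constructor
  · intro h
    have := h.sound (I := fun _ w => Pal w) (by
      rintro r ⟨_ | x, rfl⟩ w hw
      · simp only [rl, CFG.sem_ter, CFG.sem_nil] at hw
        obtain ⟨_, rfl, rfl⟩ := hw
        exact ⟨[], rfl⟩
      · simp only [rl, CFG.sem_ter, CFG.sem_nil, CFG.sem_nt] at hw
        obtain ⟨_, ⟨_, _, ⟨w, rfl⟩, ⟨_, rfl, rfl⟩, rfl⟩, rfl⟩ := hw
        exact ⟨x :: w, by simp⟩)
    simp only [CFG.sem_nil, CFG.sem_nt] at this
    obtain ⟨_, _, h', rfl, rfl⟩ := this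
    simpa using h'
  · rintro ⟨w, rfl⟩
    induction w with
    | nil => exact CFG.Gen.one ⟨none, rfl⟩ (.ter _ .nil)
    | cons x w ih =>
      simpa using CFG.Gen.one (R := Set.range rl) (X := ()) ⟨some x, rfl⟩
        (.ter (some x) (ih.append (.ter (some x) .nil)))

theorem result : ∃ F : Family, IsCone F ∧ Principal F ∧ Translatable F ∧ ProductClosed F ∧
    (∃ (X : Type) (_ : Finite X) (L : Language X), F X L ∧ ∃ w, w ∈ L) ∧
    ¬ ∀ (X : Type) [Finite X] (L : Language X), L.IsContextFree → F X L := by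
  refine ⟨T L0, T_cone _, ⟨_, inferInstance, L0, fun _ _ _ => Iff.rfl⟩, transl, prod,
    ⟨_, inferInstance, L0, fun _ _ h => h, [], LL.nil⟩, fun h => ?_⟩
  obtain ⟨Z, σ, _, _, h, g, δ, s, F, hl, e⟩ := (T_iff.1 (h Y _ ⟨gr, rfl⟩)).normal
  exact not_image (fun z => by have := hl z; omega) (fun z => by have := hl z; omega) s F
    fun v => (gr_lang v).symm.trans (e v)

end Pool.Agent.Results.MP_ead56d_lc.NotLeast
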